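import Pool.Agent.H54.CB.Tor
import Pool.Agent.H37.CE.Glo

/-!
# CCB, torsion: the elements of the group generated by the powers of the near symmetries which have bounded orbits are torsion

`fac3`: a near symmetry `c` with bounded orbits has `c ^ (n!)` in the local kernel. `tors3`: if the `Q`-th powers of the near symmetries
commute and the local kernel is finite, then the elements with bounded orbits of the group which the powers generate are torsion.
`tors3'`: the same for tame points. `Kt_le`: the numbers.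
-/

set_option autoImplicit false

namespace Pool.Agent.H54.CB

open Pool.Agent.H98.FJ Pool.Agent.H37.PT Pool.Agent.H1.CG Pool.Agent.H37.CC Pool.Agent.H37.CD Pool.Agent.H37.CE
open scoped Pointwise

section fac

variable {G H : Type} [Group G] [PartialOrder H] [Bas H] [MulAction G H] [BAct G H]
variable {P : Set (Vtx H) × Set H} {y : Vtx H} {n b r ρ : ℕ}

/-- the powers of a near symmetry move local half-spaces to half-spaces of the region -/
theorem wall_pow {c : G} (hc : c ∈ Tb G b r P y) {w : H} (hw : w ∈ P.2) (hs : ∃ z ∈ P.1, ds y z ≤ ρ ∧ Spt w y z) :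
    ∀ j : ℕ, ρ + j * b ≤ r + b → c ^ j • w ∈ P.2 ∧ ∃ z ∈ P.1, ds y z ≤ ρ + j * b ∧ Spt (c ^ j • w) y z := by
  intro j
  induction j with
  | zero =>
    intro _
    rw [pow_zero, one_smul, zero_mul, add_zero]
    exact ⟨hw, hs⟩
  | succ j ih =>
    intro hj
    have e : (j + 1) * b = j * b + b := by ring
    rw [e] at hj ⊢
    obtain ⟨h1, h2⟩ := ih (by omega)
    have h3 := Tb_wall hc (show ρ + j * b ≤ r by omega) h1 h2
    rw [pow_succ', mul_smul]
    refine ⟨h3.1, ?_⟩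
    obtain ⟨z, hz, hd, hs⟩ := h3.2
    exact ⟨z, hz, by omega, hs⟩

theorem pt_pow (hy : y ∈ P.1) {c : G} (hc : c ∈ Tb G b r P y) : ∀ j : ℕ, j * b ≤ r → c ^ j • y ∈ P.1 ∧ ds y (c ^ j • y) ≤ j * b := by
  intro j hj
  have h1 := Pool.Agent.H94.CL.pow_sub (T := {c}) hy (by rintro _ rfl; exact hc) j 0 (by omega)
  have h2 : c ^ j ∈ ({c} : Set G) ^ j := Set.pow_mem_pow rfl
  exact ⟨(h1 h2).1, (h1 h2).2.1⟩

/-- near symmetries with bounded orbits -/
theorem fac3 (hP : Rgn P) (hd : Dim H n) (hy : y ∈ P.1) {c : G} (hc : c ∈ Tb G b r P y) (hr : ρ + n * b ≤ r)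
    (hb : n.factorial * b ≤ ρ) (hx : ¬ Lx H c) : c ^ n.factorial ∈ Ker G ρ P y := by
  classical
  have hρ : ρ ≤ r := le_trans (Nat.le_add_right _ _) hr
  obtain ⟨h1, h2⟩ := pt_pow hy hc n.factorial (hb.trans hρ)
  refine fix_of_near hP hy h1 (h2.trans hb) fun w hw hs => ?_
  have hmem : ∀ j : ℕ, j ≤ n → c ^ j • w ∈ P.2 := by
    intro j hj
    refine (wall_pow hc hw hs j ?_).1
    have := Nat.mul_le_mul_right b hj
    omega
  have key : ∃ i j : ℕ, i < j ∧ j ≤ n ∧ c ^ i • w = c ^ j • w := by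
    by_contra hcon
    push Not at hcon
    have hne : ∀ i j : ℕ, i ≤ n → j ≤ n → c ^ i • w = c ^ j • w → i = j := by
      intro i j hi hj e
      rcases lt_trichotomy i j with h | h | h
      · exact absurd e (hcon i j h hj)
      · exact h
      · exact absurd e.symm (hcon j i h hi)
    let F : Finset H := (Finset.range (n + 1)).image fun j => c ^ j • w
    have hF : F.card = n + 1 := by
      rw [Finset.card_image_of_injOn, Finset.card_range]
      intro i hi j hj e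
      rw [Finset.coe_range, Set.mem_Iio] at hi hj
      exact hne i j (by omega) (by omega) e
    have h3 := hd F (by
      intro h hh k hk hhk
      obtain ⟨i, hi, rfl⟩ := Finset.mem_image.1 hh
      obtain ⟨j, hj, rfl⟩ := Finset.mem_image.1 hk
      rw [Finset.mem_range] at hi hj
      have hi' := hmem i (by omega)
      have hj' := hmem j (by omega)
      have hnlt : ∀ i j : ℕ, i ≤ n → j ≤ n → ¬ c ^ i • w < c ^ j • w := by
        intro i j hi hj hlt
        rcases lt_trichotomy i j with h | h | h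
        · -- `w < c ^ (j - i) w`
          have e : c ^ j • w = c ^ i • c ^ (j - i) • w := by rw [← mul_smul, ← pow_add, Nat.add_sub_cancel' h.le]
          rw [e, Pool.Agent.H37.CC.smul_lt] at hlt
          have h4 : (c ^ (j - i))⁻¹ • w < w := by
            have h5 := (Pool.Agent.H37.CC.smul_lt (g := (c ^ (j - i))⁻¹)).2 hlt
            rwa [inv_smul_smul] at h5
          have h5 : Lx H (c ^ (j - i))⁻¹ := Pool.Agent.H25.CN.lx_of_lt h4
          have h6 : Lx H (c ^ (j - i)) := by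
            unfold Lx at h5 ⊢
            rwa [Subgroup.zpowers_inv] at h5
          exact hx ((lx_pow (by omega)).1 h6)
        · rw [h] at hlt
          exact lt_irrefl _ hlt
        · have e : c ^ i • w = c ^ j • c ^ (i - j) • w := by rw [← mul_smul, ← pow_add, Nat.add_sub_cancel' h.le]
          rw [e, Pool.Agent.H37.CC.smul_lt] at hlt
          exact hx ((lx_pow (by omega)).1 (Pool.Agent.H25.CN.lx_of_lt hlt))
      refine ⟨fun h4 => ?_, fun h4 => ?_, (hP.nf _ hi' _ hj').1, fun h4 => ?_⟩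
      · exact hnlt i j (by omega) (by omega) (lt_of_le_of_ne h4 hhk)
      · exact hnlt j i (by omega) (by omega) (lt_of_le_of_ne h4 fun e => hhk e.symm)
      · exact (hP.nf _ hj' _ hi').2 h4)
    omega
  obtain ⟨i, j, hij, hj, e⟩ := key
  have h3 : c ^ (j - i) • w = w := by
    have h4 : c ^ j • w = c ^ i • c ^ (j - i) • w := by rw [← mul_smul, ← pow_add, Nat.add_sub_cancel' hij.le]
    rw [h4, smul_left_cancel_iff] at e
    exact e.symm
  obtain ⟨m, hm⟩ := Nat.dvd_factorial (show 0 < j - i by omega) (show j - i ≤ n by omega)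
  rw [hm, pow_mul]
  have h4 : c ^ (j - i) ∈ MulAction.stabilizer G w := h3
  exact (MulAction.stabilizer G w).pow_mem h4 m

/-- products of powers of near symmetries are near symmetries -/
theorem pw_Tb (hy : y ∈ P.1) {Q L s : ℕ} (hr : s + L * Q * b + b ≤ r) {x : G}
    (hx : Pw {x : G | ∃ γ ∈ Tb G b r P y, x = γ ^ Q} L x) : x ∈ Tb G (L * Q * b) s P y := by
  obtain ⟨l, h1, h2, rfl⟩ := hx
  have h3 : l.prod ∈ (Pool.Agent.H94.CL.Tpm G b r P y) ^ (l.length * Q) := by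
    clear h1
    induction l with
    | nil =>
      rw [List.length_nil, Nat.zero_mul, pow_zero, List.prod_nil]
      exact Set.mem_one.2 rfl
    | cons u l ih =>
      have e : (u :: l).length * Q = Q + l.length * Q := by
        rw [List.length_cons]
        ring
      rw [e, pow_add, List.prod_cons]
      refine Set.mul_mem_mul ?_ (ih fun v hv => h2 v (List.mem_cons_of_mem _ hv))
      rcases h2 u List.mem_cons_self with ⟨γ, hγ, h4⟩ | ⟨γ, hγ, h4⟩
      · rw [h4]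
        exact Set.pow_mem_pow (Or.inl hγ)
      · have h5 : u = γ⁻¹ ^ Q := by rw [inv_pow, ← h4, inv_inv]
        rw [h5]
        refine Set.pow_mem_pow (Or.inr ?_)
        rwa [inv_inv]
  have h4 : l.length * Q * b ≤ L * Q * b := Nat.mul_le_mul_right b (Nat.mul_le_mul_right Q h1)
  have h5 := Pool.Agent.H94.CL.pow_sub hy (Pool.Agent.H94.CL.tpm_sub (G := G) (b := b) (ρ := s + L * Q * b) hy hr) (l.length * Q) s
    (by omega) h3
  exact Tb_mono h4 le_rfl h5

/-- the elements with bounded orbits are torsion -/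
theorem tors3 (hd : Dim H n) (hP : Rgn P) (hy : y ∈ P.1) {Q : ℕ}
    (hab : ∀ x ∈ Tb G b r P y, ∀ z ∈ Tb G b r P y, x ^ Q * z ^ Q = z ^ Q * x ^ Q) (hf : (Ker G ρ P y : Set G).Finite)
    (hb : n.factorial * (Lf (2 * n) (Q * b) * Q * b) ≤ ρ) (hr : ρ + (n + 1) * (Lf (2 * n) (Q * b) * Q * b) + b ≤ r) :
    ∀ a ∈ Aq G Q b r P y, ¬ Lx H a → IsOfFinOrder a := by
  obtain ⟨τ, h1, h2, h3⟩ := Pool.Agent.H1.CI.exists_tau3 (H := H) hd y (Aq G Q b r P y) (Aq_comm hab)
  obtain ⟨M, hM⟩ : ∃ M, M = Lf (2 * n) (Q * b) * Q * b := ⟨_, rfl⟩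
  rw [← hM] at hb hr
  have e1 : (n + 1) * M = n * M + M := by ring
  have hkl : ∀ a ∈ Aq G Q b r P y, ¬ Lx H a → τ a = 0 := by
    intro a ha hx
    obtain ⟨D, hD⟩ : ∃ D, ∀ m : ℕ, ds y (a ^ m • y) ≤ D := by
      unfold Lx at hx
      rw [not_not] at hx
      obtain ⟨D, hD⟩ := hx
      refine ⟨ds y (bs : Vtx H) + D + ds (bs : Vtx H) y, fun m => ?_⟩
      have h4 := hD (a ^ m) ⟨(m : ℤ), zpow_natCast a m⟩
      have h5 := Pool.Agent.H1.CG.ds_tri' y (bs : Vtx H) (a ^ m • y)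
      have h6 := Pool.Agent.H1.CG.ds_tri' (bs : Vtx H) (a ^ m • (bs : Vtx H)) (a ^ m • y)
      have h7 : ds (a ^ m • (bs : Vtx H)) (a ^ m • y) = ds (bs : Vtx H) y := Pool.Agent.H1.CG.ds_smul' G _ _ _
      omega
    funext i
    have h4 : ∀ m : ℕ, m * |τ a i| ≤ D := by
      intro m
      have h5 := h3 (a ^ m) i
      rw [tau_pow (A := Aq G Q b r P y) h1 ha, Pi.smul_apply, nsmul_eq_mul, abs_mul, Nat.abs_cast] at h5
      exact h5.trans (by exact_mod_cast hD m)
    by_contra h5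
    have h6 : 0 < |τ a i| := abs_pos.2 h5
    have h7 := h4 (D + 1)
    push_cast at h7
    nlinarith
  intro a ha hx
  refine tor_ker (2 * n) (Q * b) {x : G | ∃ γ ∈ Tb G b r P y, x = γ ^ Q} (Aq_comm hab) τ h1 ?_ ?_ a ha (hkl a ha hx)
  · rintro _ ⟨γ, hγ, rfl⟩ i
    have h4 := h3 (γ ^ Q) i
    have h5 := Pool.Agent.H1.CI.ds_pow_le γ y Q
    have h6 : ds y (γ • y) ≤ b := hγ.2.1
    have h7 : ds y (γ ^ Q • y) ≤ Q * b := h5.trans (Nat.mul_le_mul_left Q h6)
    have h8 : |τ (γ ^ Q) i| ≤ ((Q * b : ℕ) : ℤ) := h4.trans (by exact_mod_cast h7)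
    rw [Int.abs_eq_natAbs] at h8
    exact_mod_cast h8
  · intro x hx h4
    have h5 : x ∈ Tb G M (r - M - b) P y := by
      rw [hM]
      refine pw_Tb hy ?_ hx
      rw [← hM]
      omega
    have h6 := fac3 hP hd hy h5 (ρ := ρ) (by omega) hb (h2 x hx.mem h4)
    have h7 : Finite (Ker G ρ P y) := hf
    have h8 : IsOfFinOrder (⟨x ^ n.factorial, h6⟩ : Ker G ρ P y) := isOfFinOrder_of_finite _
    have h9 : IsOfFinOrder (x ^ n.factorial) := (Submonoid.isOfFinOrder_coe (H := (Ker G ρ P y).toSubmonoid)).2 h8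
    exact (isOfFinOrder_pow.1 h9).resolve_right n.factorial_ne_zero

/-- the constant in `tors3'` -/
def Kt (n Q : ℕ) : ℕ := (n.factorial + n + 1) * ((2 * Q + 2) ^ (2 ^ (2 * n) - 1) * Q) + 1

theorem Kt_le (n Q b : ℕ) : n.factorial * (Lf (2 * n) (Q * b) * Q * b) ≤ Kt n Q * (b + 1) ^ (2 ^ (2 * n)) ∧
    (n + 1) * (Lf (2 * n) (Q * b) * Q * b) + b ≤ Kt n Q * (b + 1) ^ (2 ^ (2 * n)) := by
  have h0 : 0 < 2 ^ (2 * n) := by positivity
  have h1 : Lf (2 * n) (Q * b) ≤ (2 * Q + 2) ^ (2 ^ (2 * n) - 1) * (b + 1) ^ (2 ^ (2 * n) - 1) := by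
    refine (Lf_le _ _).trans ?_
    rw [← mul_pow]
    refine Nat.pow_le_pow_left ?_ _
    nlinarith [Nat.zero_le (Q * b), Nat.zero_le b]
  have h2 : Lf (2 * n) (Q * b) * Q * b ≤ ((2 * Q + 2) ^ (2 ^ (2 * n) - 1) * Q) * (b + 1) ^ (2 ^ (2 * n)) := by
    have e : (b + 1) ^ (2 ^ (2 * n)) = (b + 1) ^ (2 ^ (2 * n) - 1) * (b + 1) := by
      rw [← pow_succ, Nat.sub_add_cancel h0]
    rw [e]
    calc Lf (2 * n) (Q * b) * Q * b
        ≤ ((2 * Q + 2) ^ (2 ^ (2 * n) - 1) * (b + 1) ^ (2 ^ (2 * n) - 1)) * Q * (b + 1) :=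
          Nat.mul_le_mul (Nat.mul_le_mul_right Q h1) (Nat.le_succ b)
      _ = _ := by ring
  have h3 : b ≤ (b + 1) ^ (2 ^ (2 * n)) := by
    have h4 : (b + 1) ^ 1 ≤ (b + 1) ^ (2 ^ (2 * n)) := Nat.pow_le_pow_right (Nat.succ_pos b) h0
    rw [pow_one] at h4
    exact (Nat.le_succ b).trans h4
  obtain ⟨L, hL⟩ : ∃ L, L = Lf (2 * n) (Q * b) * Q * b := ⟨_, rfl⟩
  obtain ⟨C, hC⟩ : ∃ C, C = (2 * Q + 2) ^ (2 ^ (2 * n) - 1) * Q := ⟨_, rfl⟩
  obtain ⟨E, hE⟩ : ∃ E, E = (b + 1) ^ (2 ^ (2 * n)) := ⟨_, rfl⟩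
  have e : Kt n Q * (b + 1) ^ (2 ^ (2 * n)) = n.factorial * (C * E) + (n + 1) * (C * E) + E := by
    unfold Kt
    rw [hC, hE]
    ring
  rw [e]
  rw [← hL, ← hC, ← hE] at h2
  rw [← hE] at h3
  rw [← hL]
  have h4 := Nat.mul_le_mul_left n.factorial h2
  have h5 := Nat.mul_le_mul_left (n + 1) h2
  constructor <;> omega

/-- the result for tame points -/
theorem tors3' (hd : Dim H n) (hP : Rgn P) (hy : y ∈ P.1) {Q k N : ℕ}
    (hab : ∀ x ∈ Tb G b r P y, ∀ z ∈ Tb G b r P y, x ^ Q * z ^ Q = z ^ Q * x ^ Q) (ht : Tame G k N ρ P y)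
    (hf : Fxd H k (Ker G ρ P y)) (hb : Kt n Q * (b + 1) ^ (2 ^ (2 * n)) ≤ ρ)
    (hr : ρ + Kt n Q * (b + 1) ^ (2 ^ (2 * n)) ≤ r) : ∀ a ∈ Aq G Q b r P y, ¬ Lx H a → IsOfFinOrder a := by
  obtain ⟨h1, h2⟩ := Kt_le n Q b
  refine tors3 hd hP hy hab ?_ (h1.trans hb) (by omega)
  have h3 := ht (Ker G ρ P y) hf ⟨Ker G ρ P y, le_rfl, by rw [Subgroup.relIndex_self]; exact one_ne_zero, le_rfl⟩
  exact Set.finite_of_encard_le_coe h3

end fac

end Pool.Agent.H54.CB
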