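import Mathlib

/-!
# CCB, torsion: translation vectors of an abelian group which is generated by short elements

`tor_ker`: let `A` be an abelian group generated by `T`, `τ` additive on `A` with values in `ℤ ^ d` and entries at most `B` on `T`. If
all products of at most `Lf d B` elements of `T` and their inverses with `τ = 0` are torsion, then all elements of `A` with `τ = 0` are
torsion. Induction over `d`: `t ^ c * s ^ (-e)`, `c = τ s d`, `e = τ t d`. `Lf_le`: `Lf d B ≤ (2 B + 2) ^ (2 ^ d - 1)`.
-/

set_option autoImplicit false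

namespace Pool.Agent.H54.CB

/-- the word length which is needed -/
def Lf : ℕ → ℕ → ℕ
  | 0, _ => 1
  | d + 1, B => 2 * B * Lf d (2 * B ^ 2) + Lf d (2 * B ^ 2)

/-- products of at most `l` elements of `T` and their inverses -/
def Pw {G : Type} [Group G] (T : Set G) (l : ℕ) (x : G) : Prop :=
  ∃ s : List G, s.length ≤ l ∧ (∀ u ∈ s, u ∈ T ∨ u⁻¹ ∈ T) ∧ s.prod = x

variable {G : Type} [Group G]

theorem Pw.mono {T : Set G} {l l' : ℕ} (h : l ≤ l') {x : G} (hx : Pw T l x) : Pw T l' x := by
  obtain ⟨s, h1, h2, h3⟩ := hx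
  exact ⟨s, h1.trans h, h2, h3⟩

theorem Pw.mul {T : Set G} {l l' : ℕ} {x y : G} (hx : Pw T l x) (hy : Pw T l' y) : Pw T (l + l') (x * y) := by
  obtain ⟨s, h1, h2, h3⟩ := hx
  obtain ⟨s', h1', h2', h3'⟩ := hy
  refine ⟨s ++ s', ?_, ?_, ?_⟩
  · rw [List.length_append]
    omega
  · intro u hu
    rcases List.mem_append.1 hu with h | h
    · exact h2 u h
    · exact h2' u h
  · rw [List.prod_append, h3, h3']

theorem Pw.inv {T : Set G} {l : ℕ} {x : G} (hx : Pw T l x) : Pw T l x⁻¹ := by
  obtain ⟨s, h1, h2, h3⟩ := hx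
  refine ⟨(s.map fun u => u⁻¹).reverse, ?_, ?_, ?_⟩
  · rw [List.length_reverse, List.length_map]
    exact h1
  · intro u hu
    rw [List.mem_reverse, List.mem_map] at hu
    obtain ⟨v, hv, rfl⟩ := hu
    rw [inv_inv]
    exact (h2 v hv).symm
  · rw [← h3, List.prod_inv_reverse]

theorem Pw.one {T : Set G} {l : ℕ} : Pw T l 1 := ⟨[], Nat.zero_le _, by simp, rfl⟩

theorem Pw.of {T : Set G} {x : G} (hx : x ∈ T) : Pw T 1 x := ⟨[x], le_rfl, by simp [hx], by simp⟩

theorem Pw.pow {T : Set G} {l : ℕ} {x : G} (hx : Pw T l x) (m : ℕ) : Pw T (m * l) (x ^ m) := by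
  induction m with
  | zero =>
    rw [pow_zero]
    exact Pw.one
  | succ m ih =>
    rw [pow_succ, Nat.add_mul, Nat.one_mul]
    exact ih.mul hx

theorem Pw.zpow {T : Set G} {l : ℕ} {x : G} (hx : Pw T l x) (m : ℤ) {M : ℕ} (hm : m.natAbs ≤ M) : Pw T (M * l) (x ^ m) := by
  refine Pw.mono (Nat.mul_le_mul_right l hm) ?_
  rcases Int.natAbs_eq m with h | h
  · rw [h, zpow_natCast, Int.natAbs_natCast]
    exact hx.pow _
  · rw [h, zpow_neg, zpow_natCast, Int.natAbs_neg, Int.natAbs_natCast]
    exact (hx.pow _).inv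

/-- products of products -/
theorem Pw.sub {T T' : Set G} {c l : ℕ} (h : ∀ x ∈ T', Pw T c x) {x : G} (hx : Pw T' l x) : Pw T (l * c) x := by
  obtain ⟨s, h1, h2, rfl⟩ := hx
  refine Pw.mono (Nat.mul_le_mul_right c h1) ?_
  clear h1
  induction s with
  | nil => exact Pw.one
  | cons u s ih =>
    rw [List.prod_cons, List.length_cons, Nat.add_mul, Nat.one_mul, Nat.add_comm]
    refine Pw.mul ?_ (ih fun v hv => h2 v (List.mem_cons_of_mem _ hv))
    rcases h2 u List.mem_cons_self with h3 | h3
    · exact h u h3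
    · have := (h _ h3).inv
      rwa [inv_inv] at this

theorem Pw.mem {T : Set G} {l : ℕ} {x : G} (hx : Pw T l x) : x ∈ Subgroup.closure T := by
  obtain ⟨s, -, h2, rfl⟩ := hx
  refine Subgroup.list_prod_mem _ fun u hu => ?_
  rcases h2 u hu with h | h
  · exact Subgroup.subset_closure h
  · have := (Subgroup.closure T).inv_mem (Subgroup.subset_closure h)
    rwa [inv_inv] at this

section tau

variable {A : Subgroup G} {d : ℕ} {τ : G → Fin d → ℤ}

theorem tau_one (hτ : ∀ x ∈ A, ∀ y ∈ A, τ (x * y) = τ x + τ y) : τ 1 = 0 := by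
  have h := hτ 1 A.one_mem 1 A.one_mem
  rw [mul_one] at h
  exact left_eq_add.1 h

theorem tau_inv (hτ : ∀ x ∈ A, ∀ y ∈ A, τ (x * y) = τ x + τ y) {x : G} (hx : x ∈ A) : τ x⁻¹ = -τ x := by
  have h := hτ x hx x⁻¹ (A.inv_mem hx)
  rw [mul_inv_cancel, tau_one hτ] at h
  exact (neg_eq_of_add_eq_zero_right h.symm).symm

theorem tau_pow (hτ : ∀ x ∈ A, ∀ y ∈ A, τ (x * y) = τ x + τ y) {x : G} (hx : x ∈ A) (m : ℕ) : τ (x ^ m) = m • τ x := by
  induction m with
  | zero => rw [pow_zero, tau_one hτ, zero_smul]
  | succ m ih => rw [pow_succ, hτ _ (A.pow_mem hx m) _ hx, ih, succ_nsmul]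

theorem tau_zpow (hτ : ∀ x ∈ A, ∀ y ∈ A, τ (x * y) = τ x + τ y) {x : G} (hx : x ∈ A) (m : ℤ) : τ (x ^ m) = m • τ x := by
  rcases Int.eq_nat_or_neg m with ⟨k, rfl | rfl⟩
  · rw [zpow_natCast, tau_pow hτ hx, natCast_zsmul]
  · rw [zpow_neg, zpow_natCast, tau_inv hτ (A.pow_mem hx k), tau_pow hτ hx, neg_smul, natCast_zsmul]

end tau

theorem tor_ker (d : ℕ) : ∀ (B : ℕ) (T : Set G) (_ : ∀ x ∈ Subgroup.closure T, ∀ y ∈ Subgroup.closure T, x * y = y * x)
    (τ : G → Fin d → ℤ) (_ : ∀ x ∈ Subgroup.closure T, ∀ y ∈ Subgroup.closure T, τ (x * y) = τ x + τ y)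
    (_ : ∀ t ∈ T, ∀ i, (τ t i).natAbs ≤ B) (_ : ∀ x, Pw T (Lf d B) x → τ x = 0 → IsOfFinOrder x),
    ∀ a ∈ Subgroup.closure T, τ a = 0 → IsOfFinOrder a := by
  induction d with
  | zero =>
    intro B T hab τ _ _ hs a ha _
    induction ha using Subgroup.closure_induction with
    | mem x hx => exact hs x (Pw.of hx) (funext fun i => i.elim0)
    | one => exact IsOfFinOrder.one
    | mul x y hx hy h1 h2 =>
      exact Commute.isOfFinOrder_mul (hab x hx y hy) (h1 (funext fun i => i.elim0)) (h2 (funext fun i => i.elim0))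
    | inv x hx h1 => exact (h1 (funext fun i => i.elim0)).inv
  | succ d ih =>
    intro B T hab τ hτ hB hs a ha h0
    set A := Subgroup.closure T with hA
    by_cases hz : ∀ t ∈ T, τ t (Fin.last d) = 0
    · refine ih (2 * B ^ 2) T hab (fun x i => τ x i.castSucc) ?_ ?_ ?_ a ha ?_
      · intro x hx y hy
        funext i
        show τ (x * y) i.castSucc = _
        rw [hτ x hx y hy]
        rfl
      · intro t ht i
        refine (hB t ht _).trans ?_
        nlinarith [Nat.zero_le B]
      · intro x hx h1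
        refine hs x (hx.mono (Nat.le_add_left _ _)) ?_
        have hxA : x ∈ A := hx.mem
        have h2 : τ x (Fin.last d) = 0 := by
          clear h1 hx
          induction hxA using Subgroup.closure_induction with
          | mem x hx => exact hz x hx
          | one =>
            have := tau_one (A := A) hτ
            rw [this]
            rfl
          | mul x y hx hy h1 h2 =>
            rw [hτ x hx y hy, Pi.add_apply, h1, h2, add_zero]
          | inv x hx h1 =>
            rw [tau_inv (A := A) hτ hx, Pi.neg_apply, h1, neg_zero]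
        funext i
        refine Fin.lastCases h2 (fun j => ?_) i
        exact congrFun h1 j
      · funext i
        exact congrFun h0 i.castSucc
    · push Not at hz
      obtain ⟨s, hsT, hs0⟩ := hz
      have hsA : s ∈ A := Subgroup.subset_closure hsT
      set c := τ s (Fin.last d) with hc
      let T' : Set G := (fun t => t ^ c * s ^ (-(τ t (Fin.last d)))) '' T
      have hTA : ∀ t ∈ T, t ∈ A := fun t ht => Subgroup.subset_closure ht
      have hT'A : T' ⊆ A := by
        rintro _ ⟨t, ht, rfl⟩
        exact A.mul_mem (A.zpow_mem (hTA t ht) _) (A.zpow_mem hsA _)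
      have hcl : Subgroup.closure T' ≤ A := (Subgroup.closure_le A).2 hT'A
      have hlen : ∀ x ∈ T', Pw T (2 * B) x := by
        rintro _ ⟨t, ht, rfl⟩
        have h1 := (Pw.of ht).zpow c (M := B) (hB s hsT _)
        have h2 := (Pw.of hsT).zpow (-(τ t (Fin.last d))) (M := B) (by rw [Int.natAbs_neg]; exact hB t ht _)
        have := h1.mul h2
        refine this.mono ?_
        omega
      have hcast : ∀ x ∈ Subgroup.closure T', τ x (Fin.last d) = 0 := by
        intro x hx
        induction hx using Subgroup.closure_induction with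
        | mem x hx =>
          obtain ⟨t, ht, rfl⟩ := hx
          rw [hτ _ (A.zpow_mem (hTA t ht) _) _ (A.zpow_mem hsA _), tau_zpow (A := A) hτ (hTA t ht), tau_zpow (A := A) hτ hsA]
          show c • τ t (Fin.last d) + -(τ t (Fin.last d)) • τ s (Fin.last d) = 0
          rw [← hc, smul_eq_mul, smul_eq_mul]
          ring
        | one =>
          have := tau_one (A := A) hτ
          rw [this]
          rfl
        | mul x y hx hy h1 h2 =>
          rw [hτ x (hcl hx) y (hcl hy), Pi.add_apply, h1, h2, add_zero]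
        | inv x hx h1 =>
          rw [tau_inv (A := A) hτ (hcl hx), Pi.neg_apply, h1, neg_zero]
      have key := ih (2 * B ^ 2) T' (fun x hx y hy => hab x (hcl hx) y (hcl hy)) (fun x i => τ x i.castSucc) (by
          intro x hx y hy
          funext i
          show τ (x * y) i.castSucc = _
          rw [hτ x (hcl hx) y (hcl hy)]
          rfl) (by
          rintro _ ⟨t, ht, rfl⟩ i
          show (τ (t ^ c * s ^ (-(τ t (Fin.last d)))) i.castSucc).natAbs ≤ _
          rw [hτ _ (A.zpow_mem (hTA t ht) _) _ (A.zpow_mem hsA _), tau_zpow (A := A) hτ (hTA t ht), tau_zpow (A := A) hτ hsA]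
          show (c • τ t i.castSucc + -(τ t (Fin.last d)) • τ s i.castSucc).natAbs ≤ _
          refine (Int.natAbs_add_le _ _).trans ?_
          rw [smul_eq_mul, smul_eq_mul, Int.natAbs_mul, Int.natAbs_mul, Int.natAbs_neg]
          have h1 : c.natAbs * (τ t i.castSucc).natAbs ≤ B * B := Nat.mul_le_mul (hB s hsT _) (hB t ht _)
          have h2 : (τ t (Fin.last d)).natAbs * (τ s i.castSucc).natAbs ≤ B * B := Nat.mul_le_mul (hB t ht _) (hB s hsT _)
          rw [pow_two]
          omega) (by
          intro x hx h1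
          refine hs x ?_ ?_
          · have := hx.sub hlen
            refine this.mono ?_
            show Lf d (2 * B ^ 2) * (2 * B) ≤ 2 * B * Lf d (2 * B ^ 2) + Lf d (2 * B ^ 2)
            rw [Nat.mul_comm]
            exact Nat.le_add_right _ _
          · funext i
            refine Fin.lastCases (hcast x hx.mem) (fun j => ?_) i
            exact congrFun h1 j)
      -- the power of `a` is in the closure of `T'`
      have hpow : ∀ x ∈ A, x ^ c * s ^ (-(τ x (Fin.last d))) ∈ Subgroup.closure T' := by
        intro x hx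
        induction hx using Subgroup.closure_induction with
        | mem x hx => exact Subgroup.subset_closure ⟨x, hx, rfl⟩
        | one =>
          have := tau_one (A := A) hτ
          rw [this, one_zpow, Pi.zero_apply, neg_zero, zpow_zero, mul_one]
          exact Subgroup.one_mem _
        | mul x y hx hy h1 h2 =>
          have h3 := (Subgroup.closure T').mul_mem h1 h2
          have e : (x * y) ^ c * s ^ (-(τ (x * y) (Fin.last d))) =
              (x ^ c * s ^ (-(τ x (Fin.last d)))) * (y ^ c * s ^ (-(τ y (Fin.last d)))) := by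
            rw [hτ x hx y hy, Pi.add_apply, neg_add, zpow_add, Commute.mul_zpow (hab x hx y hy)]
            have h4 := hab (y ^ c) (A.zpow_mem hy c) (s ^ (-(τ x (Fin.last d)))) (A.zpow_mem hsA _)
            rw [mul_assoc, mul_assoc, ← mul_assoc (y ^ c), h4]
            simp only [mul_assoc]
          rw [e]
          exact h3
        | inv x hx h1 =>
          have h3 := (Subgroup.closure T').inv_mem h1
          have e : x⁻¹ ^ c * s ^ (-(τ x⁻¹ (Fin.last d))) = (x ^ c * s ^ (-(τ x (Fin.last d))))⁻¹ := by
            rw [tau_inv (A := A) hτ hx, Pi.neg_apply, mul_inv_rev, inv_zpow, ← zpow_neg, ← zpow_neg]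
            exact hab _ (A.zpow_mem hx _) _ (A.zpow_mem hsA _)
          rw [e]
          exact h3
      have h1 : a ^ c ∈ Subgroup.closure T' := by
        have := hpow a ha
        rw [show τ a (Fin.last d) = 0 from congrFun h0 _, neg_zero, zpow_zero, mul_one] at this
        exact this
      have h2 : IsOfFinOrder (a ^ c) := by
        refine key _ h1 ?_
        funext i
        show τ (a ^ c) i.castSucc = 0
        rw [tau_zpow (A := A) hτ ha, h0, smul_zero]
        rfl
      have h3 : IsOfFinOrder (a ^ c.natAbs) := by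
        rcases Int.natAbs_eq c with h | h
        · rw [h, zpow_natCast] at h2
          exact h2
        · rw [h, zpow_neg, zpow_natCast] at h2
          exact isOfFinOrder_inv_iff.1 h2
      exact (isOfFinOrder_pow.1 h3).resolve_right (Int.natAbs_ne_zero.2 hs0)

/-- `Lf` is bounded by a polynomial -/
theorem Lf_le (d B : ℕ) : Lf d B ≤ (2 * B + 2) ^ (2 ^ d - 1) := by
  induction d generalizing B with
  | zero => simp [Lf]
  | succ d ih =>
    have h1 : Lf (d + 1) B = (2 * B + 1) * Lf d (2 * B ^ 2) := by
      show 2 * B * Lf d (2 * B ^ 2) + Lf d (2 * B ^ 2) = _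
      ring
    have h2 : 2 ^ (d + 1) - 1 = 1 + 2 * (2 ^ d - 1) := by
      have : 0 < 2 ^ d := by positivity
      rw [pow_succ]
      omega
    rw [h1, h2, pow_add, pow_one, pow_mul]
    refine Nat.mul_le_mul (by omega) ((ih _).trans ?_)
    refine Nat.pow_le_pow_left ?_ _
    nlinarith

end Pool.Agent.H54.CB
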